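import Pool.Agent.W710.DP.Stm1

/-! EZL: the Leibniz rule for the Eilenberg-Zilber product of tuples (mod 2). -/

set_option autoImplicit false

namespace Pool.Agent.W885.DP

open Finsupp Pool.Agent.W710.DP

section
variable {Z X Y : Type}

lemma two_zero (c : List Z →₀ ZMod 2) : c + c = 0 := by
  ext t
  simp only [Finsupp.coe_add, Pi.add_apply, Finsupp.coe_zero, Pi.zero_apply]
  exact CharTwo.add_self_eq_zero _

lemma bd_single (s : List Z) (a : ZMod 2) : bd (single s a) = a • bdL s := by
  simp [bd]

lemma bd_cons (x : Z) (c : List Z →₀ ZMod 2) :
    bd (c.mapDomain (fun u => x :: u)) = c + (bd c).mapDomain (fun u => x :: u) := by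
  induction c using Finsupp.induction_linear with
  | zero => simp
  | add f g hf hg =>
    rw [Finsupp.mapDomain_add, map_add, hf, hg, map_add, Finsupp.mapDomain_add]
    abel
  | single s a =>
    rw [Finsupp.mapDomain_single, bd_single, bd_single, bdL, smul_add, Finsupp.smul_single,
      smul_eq_mul, mul_one, Finsupp.mapDomain_smul]

lemma ez_nil_left (t : List Y) : ez ([] : List X) t = 0 := by
  unfold ez; rfl

lemma ez_nil_right (s : List X) : ez s ([] : List Y) = 0 := by
  cases s with
  | nil => exact ez_nil_left _
  | cons x s => unfold ez; rfl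

lemma ez_single (x : X) (y : Y) : ez [x] [y] = single [(x, y)] 1 := by
  unfold ez; rfl

lemma ez_cons (x : X) (s : List X) (y : Y) (t : List Y) (h : s ≠ [] ∨ t ≠ []) :
    ez (x :: s) (y :: t) = (ez s (y :: t) + ez (x :: s) t).mapDomain (fun u => (x, y) :: u) := by
  cases s with
  | nil =>
    cases t with
    | nil => simp at h
    | cons y' t => conv_lhs => rw [ez.eq_def]
  | cons x' s => cases t <;> conv_lhs => rw [ez.eq_def]

lemma L_single (s : List X) (a : ZMod 2) (t : List Y) :
    ezc (single s a) (single t 1) = a • ez s t := by
  simp [ezc]

lemma R_single (s : List X) (a : ZMod 2) (t : List Y) :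
    ezc (single s 1) (single t a) = a • ez s t := by
  simp [ezc]

lemma L_cons (x : X) (c : List X →₀ ZMod 2) (y : Y) (t : List Y) (ht : t ≠ []) :
    ezc (c.mapDomain (fun u => x :: u)) (single (y :: t) 1) =
      (ezc c (single (y :: t) 1) + ezc (c.mapDomain (fun u => x :: u)) (single t 1)).mapDomain
        (fun u => (x, y) :: u) := by
  induction c using Finsupp.induction_linear with
  | zero => simp
  | add f g hf hg =>
    rw [Finsupp.mapDomain_add, map_add, LinearMap.add_apply, hf, hg, map_add,
      LinearMap.add_apply, LinearMap.add_apply, ← Finsupp.mapDomain_add]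
    congr 1
    abel
  | single s a =>
    rw [Finsupp.mapDomain_single, L_single, L_single, L_single, ez_cons _ _ _ _ (Or.inr ht),
      ← smul_add, Finsupp.mapDomain_smul]

lemma R_cons (x : X) (s : List X) (y : Y) (c : List Y →₀ ZMod 2) (hs : s ≠ []) :
    ezc (single (x :: s) 1) (c.mapDomain (fun u => y :: u)) =
      (ezc (single s 1) (c.mapDomain (fun u => y :: u)) + ezc (single (x :: s) 1) c).mapDomain
        (fun u => (x, y) :: u) := by
  induction c using Finsupp.induction_linear with
  | zero => simp
  | add f g hf hg =>
    rw [Finsupp.mapDomain_add, map_add, hf, hg, map_add, map_add, ← Finsupp.mapDomain_add]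
    congr 1
    abel
  | single t a =>
    rw [Finsupp.mapDomain_single, R_single, R_single, R_single, ez_cons _ _ _ _ (Or.inl hs),
      ← smul_add, Finsupp.mapDomain_smul]

lemma L_cons1 (x : X) (c : List X →₀ ZMod 2) (y : Y) :
    ezc (c.mapDomain (fun u => x :: u)) (single [y] 1) =
      (ezc c (single [y] 1)).mapDomain (fun u => (x, y) :: u) + c [] • single [(x, y)] 1 := by
  induction c using Finsupp.induction_linear with
  | zero => simp
  | add f g hf hg =>
    rw [Finsupp.mapDomain_add, map_add, LinearMap.add_apply, hf, hg, map_add,
      LinearMap.add_apply, Finsupp.mapDomain_add, Finsupp.add_apply, add_smul]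
    abel
  | single s a =>
    rw [Finsupp.mapDomain_single, L_single, L_single]
    cases s with
    | nil =>
      rw [ez_single, ez_nil_left, Finsupp.single_eq_same]
      simp
    | cons x' s =>
      rw [ez_cons x (x' :: s) y [] (Or.inl (by simp)), ez_nil_right, add_zero,
        Finsupp.single_eq_of_ne (by simp), zero_smul, add_zero, Finsupp.mapDomain_smul]

lemma R_cons1 (x : X) (y : Y) (c : List Y →₀ ZMod 2) :
    ezc (single [x] 1) (c.mapDomain (fun u => y :: u)) =
      (ezc (single [x] 1) c).mapDomain (fun u => (x, y) :: u) + c [] • single [(x, y)] 1 := by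
  induction c using Finsupp.induction_linear with
  | zero => simp
  | add f g hf hg =>
    rw [Finsupp.mapDomain_add, map_add, hf, hg, map_add, Finsupp.mapDomain_add,
      Finsupp.add_apply, add_smul]
    abel
  | single t a =>
    rw [Finsupp.mapDomain_single, R_single, R_single]
    cases t with
    | nil =>
      rw [ez_single, ez_nil_right, Finsupp.single_eq_same]
      simp
    | cons y' t =>
      rw [ez_cons x [] y (y' :: t) (Or.inr (by simp)), ez_nil_left, zero_add,
        Finsupp.single_eq_of_ne (by simp), zero_smul, add_zero, Finsupp.mapDomain_smul]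

lemma cons_nil (x : Z) (c : List Z →₀ ZMod 2) : (c.mapDomain (fun u => x :: u)) [] = 0 := by
  classical
  by_contra h
  have h2 := Finsupp.mapDomain_support (Finsupp.mem_support_iff.mpr h)
  simp at h2

lemma bdL_nil_zero (s : List Z) (h : s.length ≠ 1) : (bdL s) [] = 0 := by
  cases s with
  | nil => simp [bdL]
  | cons x s =>
    rw [bdL, Finsupp.add_apply, cons_nil, add_zero, Finsupp.single_eq_of_ne]
    rintro rfl
    simp at h

end

theorem t_ezl : S_ezl := by
  intro X Y
  suffices H : ∀ n : ℕ, ∀ (s : List X) (t : List Y), s.length + t.length = n → s ≠ [] → t ≠ [] →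
      3 ≤ s.length + t.length →
      bd (ez s t) = ezc (bdL s) (single t 1) + ezc (single s 1) (bdL t) from
    fun s t hs ht h3 => H _ s t rfl hs ht h3
  intro n
  induction n using Nat.strong_induction_on with
  | _ n ih =>
    intro s t hn hs ht h3
    obtain ⟨x, s', rfl⟩ := List.exists_cons_of_ne_nil hs
    obtain ⟨y, t', rfl⟩ := List.exists_cons_of_ne_nil ht
    by_cases hs' : s' = []
    · subst hs'
      have ht' : t' ≠ [] := by
        rintro rfl
        simp at h3
      have e1 : bdL ([x] : List X) = single [] 1 := by simp [bdL]
      rw [ez_cons x [] y t' (Or.inr ht'), ez_nil_left, zero_add, bd_cons, e1, L_single,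
        ez_nil_left, smul_zero, zero_add, bdL, map_add, R_single, one_smul, R_cons1]
      congr 1
      by_cases ht2 : t'.length = 1
      · obtain ⟨y', rfl⟩ := List.length_eq_one_iff.mp ht2
        rw [ez_single, bd_single, one_smul]
        have e2 : bdL ([(x, y')] : List (X × Y)) = single [] 1 := by simp [bdL]
        have e3 : bdL ([y'] : List Y) = single [] 1 := by simp [bdL]
        rw [e2, e3, R_single, ez_nil_right, smul_zero, Finsupp.mapDomain_zero, zero_add,
          Finsupp.mapDomain_single, Finsupp.single_eq_same, one_smul]
      · have h0 : 0 < t'.length := List.length_pos_iff.mpr ht'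
        have := ih (1 + t'.length) (by simp at hn; omega) [x] t' (by simp) (by simp) ht'
          (by simp; omega)
        rw [this, e1, L_single, ez_nil_left, smul_zero, zero_add, bdL_nil_zero t' ht2, zero_smul,
          add_zero]
    · by_cases ht' : t' = []
      · subst ht'
        have e1 : bdL ([y] : List Y) = single [] 1 := by simp [bdL]
        rw [ez_cons x s' y [] (Or.inl hs'), ez_nil_right, add_zero, bd_cons, e1, R_single,
          ez_nil_right, smul_zero, add_zero, bdL, map_add, LinearMap.add_apply, L_single,
          one_smul, L_cons1]
        congr 1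
        by_cases hs2 : s'.length = 1
        · obtain ⟨x', rfl⟩ := List.length_eq_one_iff.mp hs2
          rw [ez_single, bd_single, one_smul]
          have e2 : bdL ([(x', y)] : List (X × Y)) = single [] 1 := by simp [bdL]
          have e3 : bdL ([x'] : List X) = single [] 1 := by simp [bdL]
          rw [e2, e3, L_single, ez_nil_left, smul_zero, Finsupp.mapDomain_zero, zero_add,
            Finsupp.mapDomain_single, Finsupp.single_eq_same, one_smul]
        · have h0 : 0 < s'.length := List.length_pos_iff.mpr hs'
          have := ih (s'.length + 1) (by simp at hn; omega) s' [y] (by simp) hs' (by simp)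
            (by simp; omega)
          rw [this, e1, R_single, ez_nil_right, smul_zero, add_zero, bdL_nil_zero s' hs2,
            zero_smul, add_zero]
      · have hs0 : 0 < s'.length := List.length_pos_iff.mpr hs'
        have ht0 : 0 < t'.length := List.length_pos_iff.mpr ht'
        have i1 := ih (s'.length + (y :: t').length) (by simp at hn ⊢; omega) s' (y :: t') rfl hs'
          (by simp) (by simp; omega)
        have i2 := ih ((x :: s').length + t'.length) (by simp at hn ⊢; omega) (x :: s') t' rfl
          (by simp) ht' (by simp; omega)
        rw [ez_cons x s' y t' (Or.inl hs'), bd_cons, map_add, i1, i2]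
        have eL : ezc (bdL (x :: s')) (single (y :: t') 1) = ez s' (y :: t') +
            (ezc (bdL s') (single (y :: t') 1) +
              ezc ((bdL s').mapDomain (fun u => x :: u)) (single t' 1)).mapDomain
              (fun u => (x, y) :: u) := by
          rw [bdL, map_add, LinearMap.add_apply, L_single, one_smul, L_cons _ _ _ _ ht']
        have eR : ezc (single (x :: s') 1) (bdL (y :: t')) = ez (x :: s') t' +
            (ezc (single s' 1) ((bdL t').mapDomain (fun u => y :: u)) +
              ezc (single (x :: s') 1) (bdL t')).mapDomain (fun u => (x, y) :: u) := by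
          rw [bdL, map_add, R_single, one_smul, R_cons _ _ _ _ hs']
        rw [eL, eR]
        have e3 : ezc (single s' 1) (bdL (y :: t')) =
            ez s' t' + ezc (single s' 1) ((bdL t').mapDomain (fun u => y :: u)) := by
          rw [bdL, map_add, R_single, one_smul]
        have e4 : ezc (bdL (x :: s')) (single t' 1) =
            ez s' t' + ezc ((bdL s').mapDomain (fun u => x :: u)) (single t' 1) := by
          rw [bdL, map_add, LinearMap.add_apply, L_single, one_smul]
        rw [e3, e4]
        have e5 : ∀ a b c d e : List (X × Y) →₀ ZMod 2,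
            a + (e + b) + (e + c + d) = (a + c) + (b + d) := by
          intro a b c d e
          have := two_zero e
          calc a + (e + b) + (e + c + d) = (a + c) + (b + d) + (e + e) := by abel
            _ = _ := by rw [this, add_zero]
        rw [e5, Finsupp.mapDomain_add]
        abel

end Pool.Agent.W885.DP
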